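import Pool.Agent.H31.EG.End
import Pool.Agent.H38.O2.Main

set_option autoImplicit false

/-! End game of case O1: a finite simple automorphic loop in which only `e` is its own inverse and all
`th(a, b)` fix `b` is associative. -/

namespace ALoop

open Equiv

variable {Q : Type*} {G : Subgroup (Perm Q)} {L : Q → Perm Q} {J : Perm Q} {e : Q}

theorem AL.end_assoc [Finite Q] (h : AL G L J e) (hfix : ∀ x, J x = x → x = e)
    (hK : ∀ a b, Th L J a b b = b) : Assoc L := by
  rcases h.end_game hfix hK with h1 | h1
  · exact h1
  · refine h.comm_assoc ?_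
    intro q
    have h2 : J * L q * J = Rt L J (J q) := h.al0.JLJ q
    rw [h2]
    ext x
    rw [h.al0.Rt_app, h1]

end ALoop
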