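import Pool.Agent.H71.O2.K1
import Pool.Agent.H28.NM

set_option autoImplicit false

/-!
End game of case O1 (helper32's proof, note 6889): if all `th(a, b)` fix `b` (and only `e` is its own
inverse) the loop is Moufang, its commutators are nuclear, and a simple one is associative or
commutative.
-/

namespace ALoop

open Equiv

variable {Q : Type*} {G : Subgroup (Perm Q)} {L : Q → Perm Q} {J : Perm Q} {e : Q}

/-- `a(x, y) = L_(xy)⁻¹ L_x L_y` -/
def EGal (L : Q → Perm Q) (x y : Q) : Perm Q := (L (L x y))⁻¹ * L x * L y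

namespace AL0

section
variable (h : AL0 G L J e) (hK : ∀ a b, Th L J a b b = b)
include h

theorem eg_Le1 : L e = 1 := by
  ext y
  have h2 := h.Rt_app y e
  rw [h.Rt_e] at h2
  rw [← h2, Perm.one_apply]

theorem eg_map {g : Perm Q} (hg : g ∈ G) (he : g e = e) (x y : Q) : g (L x y) = L (g x) (g y) := by
  have h1 := h.equi g hg he x
  rw [← h1, Perm.mul_apply, Perm.mul_apply, inv_apply']

include hK

theorem eg_fixa (a b : Q) : Th L J a b a = a := by
  have h1 := hK (J b) (J a)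
  rw [h.Th_inv, Perm.inv_eq_iff_eq] at h1
  have h2 := h.fixJ (h.Th_mem a b) (h.Th_e a b) h1.symm
  rwa [h.JJ] at h2

theorem eg_cLb (a b : Q) : Th L J a b * L b = L b * Th L J a b :=
  h.comL (h.Th_mem a b) (h.Th_e a b) (hK a b)

theorem eg_cRb (a b : Q) : Th L J a b * Rt L J b = Rt L J b * Th L J a b :=
  h.comR (h.Th_mem a b) (h.Th_e a b) (hK a b)

theorem eg_cLa (a b : Q) : Th L J a b * L a = L a * Th L J a b :=
  h.comL (h.Th_mem a b) (h.Th_e a b) (h.eg_fixa hK a b)

theorem eg_cRa (a b : Q) : Th L J a b * Rt L J a = Rt L J a * Th L J a b :=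
  h.comR (h.Th_mem a b) (h.Th_e a b) (h.eg_fixa hK a b)

/-- `th(a, b⁻¹) = th(a, b)⁻¹` -/
theorem eg_J2 (a b : Q) : Th L J a (J b) = (Th L J a b)⁻¹ := by
  have h1 := h.K1 a b
  have h2 : Th L J a b * Tx L J b = Tx L J b * Th L J a b := by
    unfold Tx
    have h3 := h.eg_cLb hK a b
    have h4 := h.eg_cRb hK a b
    have h5 : Th L J a b * (Rt L J b)⁻¹ = (Rt L J b)⁻¹ * Th L J a b := by
      rw [mul_inv_eq_iff_eq_mul, mul_assoc, h4]; group
    calc Th L J a b * (L b * (Rt L J b)⁻¹) = (Th L J a b * L b) * (Rt L J b)⁻¹ := by group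
      _ = L b * (Th L J a b * (Rt L J b)⁻¹) := by rw [h3]; group
      _ = _ := by rw [h5]; group
  rw [h2] at h1
  have h3 := mul_left_cancel h1
  rw [← h3, inv_inv]

/-- inverse property -/
theorem eg_RJ (b : Q) : Rt L J (J b) = (Rt L J b)⁻¹ := by
  set w := Rt L J b * Rt L J (J b) with hw
  have hwG : w ∈ G := G.mul_mem (h.memR _) (h.memR _)
  have hwe : w e = e := by rw [hw, Perm.mul_apply, h.Rt_e, h.Rt_app, h.JL]
  have hfix : ∀ a, w a = a := by
    intro a
    have h1 : (L a)⁻¹ * Rt L J b * L a = Rt L J b * (Th L J a b)⁻¹ := by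
      unfold Th; group
    have h2 : (L a)⁻¹ * Rt L J (J b) * L a = Rt L J (J b) * Th L J a b := by
      have : Th L J a b = (Th L J a (J b))⁻¹ := by rw [h.eg_J2 hK, inv_inv]
      rw [this]
      unfold Th; group
    have h3 : Th L J a b * Rt L J (J b) = Rt L J (J b) * Th L J a b :=
      h.comR (h.Th_mem a b) (h.Th_e a b) (h.fixJ (h.Th_mem a b) (h.Th_e a b) (hK a b))
    have h4 : (L a)⁻¹ * w * L a = w := by
      calc (L a)⁻¹ * w * L a = ((L a)⁻¹ * Rt L J b * L a) * ((L a)⁻¹ * Rt L J (J b) * L a) := by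
            rw [hw]; group
        _ = Rt L J b * (Th L J a b)⁻¹ * (Rt L J (J b) * Th L J a b) := by rw [h1, h2]
        _ = Rt L J b * (Th L J a b)⁻¹ * (Th L J a b * Rt L J (J b)) := by rw [h3]
        _ = w := by rw [hw]; group
    have h5 : w * L a = L a * w := by
      calc w * L a = L a * ((L a)⁻¹ * w * L a) := by group
        _ = _ := by rw [h4]
    have h6 := congrArg (fun p : Perm Q => p e) h5
    simp only [Perm.mul_apply] at h6
    rwa [h.Le, hwe, h.Le] at h6
  have hw1 : w = 1 := by ext a; rw [hfix, Perm.one_apply]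
  rw [eq_inv_iff_mul_eq_one]
  have h7 := h.RRJ b
  rw [← h7]; exact hw1

theorem eg_LJ (b : Q) : L (J b) = (L b)⁻¹ := by
  have h1 := h.eg_RJ hK (J b)
  rw [h.JJ] at h1
  have h2 : L (J b) = J * Rt L J b * J := (h.JRJ b).symm
  have h3 : Rt L J (J b) = J * L b * J := (h.JLJ b).symm
  rw [h2, h1, h3, mul_inv_rev, mul_inv_rev, h.Jinv]
  calc J * (J * ((L b)⁻¹ * J)) * J = (J * J) * (L b)⁻¹ * (J * J) := by group
    _ = _ := by rw [h.JJ1]; group

theorem eg_J1 (a b : Q) : Th L J (J a) b = (Th L J a b)⁻¹ := by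
  have h1 : Th L J (J a) b = L a * (Th L J a b)⁻¹ * (L a)⁻¹ := by
    unfold Th
    rw [h.eg_LJ hK]; group
  rw [h1]
  have h2 := h.eg_cLa hK a b
  have h3 : L a * (Th L J a b)⁻¹ = (Th L J a b)⁻¹ * L a := by
    rw [mul_inv_eq_iff_eq_mul, mul_assoc, ← h2]; group
  rw [h3]; group

theorem eg_sym (a b : Q) : Th L J b a = (Th L J a b)⁻¹ := by
  have h1 := h.Th_inv a b
  rw [h.eg_J2 hK, h.eg_J1 hK, inv_inv] at h1
  exact h1

omit hK in
theorem al_mem (x y : Q) : EGal L x y ∈ G :=
  G.mul_mem (G.mul_mem (G.inv_mem (h.memL _)) (h.memL _)) (h.memL _)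

omit hK in
theorem al_e (x y : Q) : EGal L x y e = e := by
  unfold EGal
  simp only [Perm.mul_apply]
  rw [h.Le, Perm.inv_eq_iff_eq, h.Le]

omit hK in
theorem al_x (x y : Q) : EGal L x y x = x := by
  unfold EGal
  simp only [Perm.mul_apply]
  rw [Perm.inv_eq_iff_eq]
  have h1 := congrArg (fun f : Perm Q => f y) (h.flex x)
  simp only [Perm.mul_apply] at h1
  rw [h.Rt_app, h.Rt_app] at h1
  exact h1

theorem al_xy (x y : Q) : EGal L x y (L x y) = L x y := by
  have h1 : EGal L x y (J (L x y)) = J (L x y) := by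
    unfold EGal
    simp only [Perm.mul_apply]
    rw [h.aaip, h.eg_LJ hK y, apply_inv', h.LJ, h.L_inv_e, h.aaip, h.eg_LJ hK y]
  have h2 := h.fixJ (h.al_mem x y) (h.al_e x y) h1
  rwa [h.JJ] at h2

theorem al_y (x y : Q) : EGal L x y y = y := by
  have h1 := h.eg_map (h.al_mem x y) (h.al_e x y) x y
  rw [h.al_xy hK, h.al_x] at h1
  exact ((L x).injective h1).symm

theorem al_J (x y : Q) : EGal L (J y) (J x) = (EGal L x y)⁻¹ := by
  have h1 : EGal L (J y) (J x) = L (L x y) * (L y)⁻¹ * (L x)⁻¹ := by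
    unfold EGal
    rw [← h.aaip, h.eg_LJ hK, h.eg_LJ hK, h.eg_LJ hK, inv_inv]
  have h2 := h.comL (h.al_mem x y) (h.al_e x y) (h.al_xy hK x y)
  have h3 : L x * L y = L (L x y) * EGal L x y := by unfold EGal; group
  rw [h1]
  calc L (L x y) * (L y)⁻¹ * (L x)⁻¹ = L (L x y) * (L x * L y)⁻¹ := by group
    _ = L (L x y) * (L (L x y) * EGal L x y)⁻¹ := by rw [h3]
    _ = L (L x y) * (EGal L x y * L (L x y))⁻¹ := by rw [h2]
    _ = _ := by group

/-- `R_(xy) = a(x, y) R_y R_x` -/
theorem al_R (x y : Q) : Rt L J (L x y) = EGal L x y * Rt L J y * Rt L J x := by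
  have h1 := h.comJ _ (h.al_mem x y) (h.al_e x y)
  have h2 : EGal L x y = J * EGal L x y * J := by rw [← h1, mul_assoc, h.JJ1, mul_one]
  have h3 : J * EGal L x y * J =
      (J * L (L x y) * J)⁻¹ * (J * L x * J) * (J * L y * J) := by
    unfold EGal
    rw [mul_inv_rev, mul_inv_rev, h.Jinv]
    calc J * ((L (L x y))⁻¹ * L x * L y) * J = J * (L (L x y))⁻¹ * 1 * L x * 1 * L y * J := by
          group
      _ = J * (L (L x y))⁻¹ * (J * J) * L x * (J * J) * L y * J := by rw [h.JJ1]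
      _ = _ := by group
  rw [h.JLJ, h.JLJ, h.JLJ, h.eg_RJ hK, h.eg_RJ hK, h.eg_RJ hK, inv_inv] at h3
  rw [h2, h3]; group

/-- `a(y, z) w = th(w y⁻¹, z) w` -/
theorem al_th (x y z : Q) : EGal L y z (L x y) = Th L J x z (L x y) := by
  -- both sides of `x (y z)`
  have h1 : L x (Rt L J z y) = Rt L J z (Th L J x z (L x y)) := by
    have e1 : L x * Rt L J z = Rt L J z * L x * Th L J x z := by unfold Th; group
    have e2 := congrArg (fun f : Perm Q => f y) e1
    simp only [Perm.mul_apply] at e2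
    have e3 := congrArg (fun f : Perm Q => f y) (h.eg_cLa hK x z)
    simp only [Perm.mul_apply] at e3
    rw [e2, ← e3]
  have h2 : L x (Rt L J z y) = Rt L J z (EGal L y z (L x y)) := by
    rw [h.Rt_app z y, ← h.Rt_app (L y z) x, h.al_R hK]
    have e1 := congrArg (fun f : Perm Q => f (L x y))
      (h.comR (h.al_mem y z) (h.al_e y z) (h.al_y hK y z))
    simp only [Perm.mul_apply] at e1 ⊢
    rw [h.Rt_app y x, e1]
  rw [h1] at h2
  exact ((Rt L J z).injective h2).symm

/-- `a(y, z) w = th(w y⁻¹, z) w` -/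
theorem al_th' (y z w : Q) : EGal L y z w = Th L J ((Rt L J y)⁻¹ w) z w := by
  have h1 := h.al_th hK ((Rt L J y)⁻¹ w) y z
  have h2 : L ((Rt L J y)⁻¹ w) y = w := by rw [← h.Rt_app, apply_inv']
  rwa [h2] at h1

/-- `a(y, z)⁻¹ w = th(y, w z) w` -/
theorem al_A (y z w : Q) : (EGal L y z)⁻¹ w = Th L J y (L w z) w := by
  have h1 := h.al_th' hK (J z) (J y) w
  rw [h.al_J hK] at h1
  rw [h1, h.eg_RJ hK, inv_inv, h.Rt_app, h.eg_J2 hK, ← h.eg_sym hK]

/-- `a(y, z)⁻¹ w = th(y, w⁻¹ z) w` -/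
theorem al_B (y z w : Q) : (EGal L y z)⁻¹ w = Th L J y (L (J w) z) w := by
  have h1 := h.al_A hK y z (J w)
  have h2 := h.comJ _ (h.al_mem y z) (h.al_e y z)
  have h3 : (EGal L y z)⁻¹ * J = J * (EGal L y z)⁻¹ := by
    rw [inv_mul_eq_iff_eq_mul, ← mul_assoc, h2]; group
  have h4 := congrArg (fun f : Perm Q => f w) h3
  have h5 := congrArg (fun f : Perm Q => f w) (h.Th_J y (L (J w) z))
  simp only [Perm.mul_apply] at h4 h5
  rw [h4, h5] at h1
  exact J.injective h1

/-- the period 2 -/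
theorem al_per (y z w : Q) : Th L J y (L w (L w z)) w = Th L J y z w := by
  have h1 := h.al_A hK y (L w z) w
  have h2 := h.al_B hK y (L w z) w
  rw [h.eg_LJ hK, inv_apply'] at h2
  rw [← h1, h2]

theorem al_per' (y w : Q) (k : ℕ) (z : Q) : Th L J y (((L w) ^ (2 * k)) z) w = Th L J y z w := by
  induction k generalizing z with
  | zero => simp
  | succ k ih =>
    have h1 : (L w) ^ (2 * (k + 1)) = (L w) ^ (2 * k) * (L w * L w) := by
      rw [← pow_two, ← pow_add]; congr 1
    rw [h1, Perm.mul_apply, ih, Perm.mul_apply, h.al_per hK]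

/-- powers -/
theorem L_pow (w : Q) (k : ℕ) : L (((L w) ^ k) e) = (L w) ^ k ∧
    Rt L J (((L w) ^ k) e) = (Rt L J w) ^ k := by
  have hR : ∀ k : ℕ, L (((L w) ^ k) e) = (L w) ^ k → Rt L J (((L w) ^ k) e) = (Rt L J w) ^ k := by
    intro k hk
    have e1 : Rt L J (((L w) ^ k) e) = J * (L w ^ k)⁻¹ * J := by
      unfold Rt
      rw [h.eg_LJ hK, hk]
    have e2 : Rt L J w = J * (L w)⁻¹ * J⁻¹ := by
      unfold Rt
      rw [h.eg_LJ hK, h.Jinv]
    rw [e1, e2, conj_pow, inv_pow, h.Jinv]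
  induction k with
  | zero =>
    have h1 : L (((L w) ^ 0) e) = (L w) ^ 0 := by
      rw [pow_zero, Perm.one_apply, h.eg_Le1]
    exact ⟨h1, hR 0 h1⟩
  | succ k ih =>
    have h1 : L (((L w) ^ (k + 1)) e) = (L w) ^ (k + 1) := by
      set wk := ((L w) ^ k) e with hwk
      have e1 : ((L w) ^ (k + 1)) e = L wk w := by
        rw [ih.1, pow_succ, Perm.mul_apply, h.Le]
      have e2 : EGal L wk w = 1 := by
        ext v
        rw [h.al_th' hK, Perm.one_apply]
        set x := (Rt L J wk)⁻¹ v with hx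
        have e3 : v = (Rt L J w ^ k) x := by rw [hx, ← ih.2, apply_inv']
        have e4 : Commute (Th L J x w) (Rt L J w ^ k) :=
          Commute.pow_right (h.eg_cRb hK x w) k
        have e5 := congrArg (fun f : Perm Q => f x) e4.eq
        simp only [Perm.mul_apply] at e5
        rw [h.eg_fixa hK] at e5
        rw [e3]
        exact e5
      have e3 : L wk * L w = L (L wk w) * EGal L wk w := by unfold EGal; group
      rw [e2, mul_one] at e3
      rw [e1, ← e3, ih.1, pow_succ]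
    exact ⟨h1, hR _ h1⟩

/-- `L w` has odd order -/
theorem L_odd [Finite Q] (hfix : ∀ x, J x = x → x = e) (w : Q) : Odd (orderOf (L w)) := by
  rw [← Nat.not_even_iff_odd]
  rintro ⟨k, hk⟩
  have h0 : 0 < orderOf (L w) := orderOf_pos _
  obtain ⟨z, hz⟩ : ∃ z, z = ((L w) ^ k) e := ⟨_, rfl⟩
  have h1 : L z = (L w) ^ k := by rw [hz, (h.L_pow hK w k).1]
  have h2 : L z * L z = 1 := by rw [h1, ← pow_add, ← hk, pow_orderOf_eq_one]
  have h3 : J z = z := by
    have e1 : (L z)⁻¹ = L z := inv_eq_of_mul_eq_one_left h2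
    rw [← h.L_inv_e, e1, h.Le]
  have h4 := hfix z h3
  rw [h4, h.eg_Le1] at h1
  have h5 := orderOf_dvd_of_pow_eq_one h1.symm
  have h6 := Nat.le_of_dvd (by omega) h5
  omega

theorem al_per1 [Finite Q] (hfix : ∀ x, J x = x → x = e) (y z w : Q) :
    Th L J y (L w z) w = Th L J y z w := by
  obtain ⟨m, hm⟩ := h.L_odd hK hfix w
  have h1 : (L w) ^ (2 * (m + 1)) = L w := by
    have e1 : 2 * (m + 1) = orderOf (L w) + 1 := by omega
    rw [e1, pow_succ, pow_orderOf_eq_one, one_mul]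
  have h2 := h.al_per' hK y w (m + 1) z
  rwa [h1] at h2

/-- `a(y, z) = th(y, z)⁻¹` -/
theorem al_eq [Finite Q] (hfix : ∀ x, J x = x → x = e) (y z : Q) :
    EGal L y z = (Th L J y z)⁻¹ := by
  rw [← inv_inv (EGal L y z)]
  congr 1
  ext w
  rw [h.al_A hK, h.al_per1 hK hfix]

/-- `L_(xy) = L_x L_y th(x, y)` -/
theorem L_mul [Finite Q] (hfix : ∀ x, J x = x → x = e) (x y : Q) :
    L (L x y) = L x * L y * Th L J x y := by
  have h1 : L x * L y = L (L x y) * EGal L x y := by unfold EGal; group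
  rw [h1, h.al_eq hK hfix]; group

/-- middle Moufang identity -/
theorem moufang [Finite Q] (hfix : ∀ x, J x = x → x = e) (x p : Q) :
    L (L x p) * Rt L J x = L x * Rt L J x * L p := by
  have h1 : L p * Rt L J x = Rt L J x * L p * Th L J p x := by unfold Th; group
  rw [h.L_mul hK hfix]
  calc L x * L p * Th L J x p * Rt L J x = L x * L p * (Th L J x p * Rt L J x) := by group
    _ = L x * (L p * Rt L J x) * Th L J x p := by rw [h.eg_cRa hK x p]; group
    _ = L x * Rt L J x * L p * (Th L J p x * Th L J x p) := by rw [h1]; group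
    _ = _ := by rw [h.eg_sym hK x p]; group

/-- commutators are in the middle nucleus -/
theorem comm_nuc [Finite Q] (hfix : ∀ x, J x = x → x = e) (x y v : Q) :
    L (L v ((Rt L J (L x y))⁻¹ (L y x))) = L v * L ((Rt L J (L x y))⁻¹ (L y x)) := by
  have hM : ∀ x p q, L (L x p) (Rt L J x q) = L x (Rt L J x (L p q)) := by
    intro x p q
    have := congrArg (fun f : Perm Q => f q) (h.moufang hK hfix x p)
    simpa only [Perm.mul_apply] using this
  set al := EGal L x y with hal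
  obtain ⟨V, hV⟩ : ∃ V, V = (Rt L J (L x y))⁻¹ * Rt L J x * Rt L J y := ⟨_, rfl⟩
  obtain ⟨W, hW⟩ : ∃ W, W = (L (L x y) * Rt L J (L x y))⁻¹ * (L x * Rt L J x) *
    (L y * Rt L J y) := ⟨_, rfl⟩
  have halm : ∀ p q, al (L p q) = L (al p) (al q) := h.eg_map (h.al_mem x y) (h.al_e x y)
  have hLal : L (L x y) * al = L x * L y := by rw [hal]; unfold EGal; group
  have hRV : Rt L J (L x y) * V = Rt L J x * Rt L J y := by rw [hV]; group
  have h1 : ∀ p q, L (al p) (V q) = W (L p q) := by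
    intro p q
    have e1 := hM (L x y) (al p) (V q)
    have e2 : L (L x y) (al p) = L x (L y p) := by
      have := congrArg (fun f : Perm Q => f p) hLal
      simpa only [Perm.mul_apply] using this
    have e3 : Rt L J (L x y) (V q) = Rt L J x (Rt L J y q) := by
      have := congrArg (fun f : Perm Q => f q) hRV
      simpa only [Perm.mul_apply] using this
    rw [e2, e3, hM, hM] at e1
    have e4 : W (L p q) = (L (L x y) * Rt L J (L x y))⁻¹
        (L x (Rt L J x (L y (Rt L J y (L p q))))) := by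
      rw [hW]; simp only [Perm.mul_apply]
    rw [e4, e1]
    rw [← Perm.mul_apply (L (L x y)) (Rt L J (L x y)), inv_apply']
  have hale : al e = e := h.al_e x y
  have h2 : ∀ q, V q = W q := by
    intro q
    have := h1 e q
    rwa [hale, h.eg_Le1, Perm.one_apply, Perm.one_apply] at this
  obtain ⟨c, hc⟩ : ∃ c, c = V e := ⟨_, rfl⟩
  have h3 : ∀ p, V p = L (al p) c := by
    intro p
    have := h1 p e
    rw [h.Le, ← h2, ← hc] at this
    exact this.symm
  have h4 : ∀ p q, L p (L q c) = L (L p q) c := by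
    intro p q
    obtain ⟨p', rfl⟩ := al.surjective p
    obtain ⟨q', rfl⟩ := al.surjective q
    rw [← h3 q', h1, ← h2, h3, halm]
  have hcc : (Rt L J (L x y))⁻¹ (L y x) = c := by
    rw [hc, hV]
    simp only [Perm.mul_apply]
    rw [h.Rt_e, h.Rt_app]
  rw [hcc]
  have h5 : Th L J v c = 1 := by
    have e1 : L v * Rt L J c = Rt L J c * L v := by
      ext q
      rw [Perm.mul_apply, Perm.mul_apply, h.Rt_app, h.Rt_app, h4]
    unfold Th
    calc (L v)⁻¹ * (Rt L J c)⁻¹ * L v * Rt L J c = (L v)⁻¹ * (Rt L J c)⁻¹ * (L v * Rt L J c) := by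
          group
      _ = _ := by rw [e1]; group
  rw [h.L_mul hK hfix, h5, mul_one]

end

end AL0

/-- the end game -/
theorem AL.end_game [Finite Q] (h : AL G L J e) (hfix : ∀ x, J x = x → x = e)
    (hK : ∀ a b, Th L J a b b = b) : Assoc L ∨ ∀ x y, L x y = L y x := by
  by_cases hc : ∀ x y, L x y = L y x
  · exact Or.inr hc
  · left
    push Not at hc
    obtain ⟨x, y, hxy⟩ := hc
    have h1 := h.al0.comm_nuc hK hfix x y
    refine h.assoc_of_mn (s := (Rt L J (L x y))⁻¹ (L y x)) ?_ ?_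
    · intro v z
      rw [h1, Perm.mul_apply]
    · intro h2
      rw [Perm.inv_eq_iff_eq, h.al0.Rt_e] at h2
      exact hxy h2.symm

end ALoop
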